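import Pool.Agent.Helper73.SM.Goals
import Mathlib.Order.Interval.Finset.Box

/-!
# Project SM, packet DET: matrices of small determinant
-/

set_option autoImplicit false

namespace Pool.Agent.Helper45.SM

open Finset Pool.Agent.Helper73.SM

/-- integers in an open interval -/
theorem card_near (S : Finset ℤ) (x ρ : ℝ) (hρ : 0 ≤ ρ) (h : ∀ d ∈ S, |(d : ℝ) - x| < ρ) :
    (S.card : ℝ) ≤ 2 * ρ + 1 := by
  rcases S.eq_empty_or_nonempty with rfl | hne
  · simp; linarith
  · have hsub : S ⊆ Icc (S.min' hne) (S.max' hne) := fun d hd =>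
      mem_Icc.mpr ⟨S.min'_le d hd, S.le_max' d hd⟩
    have hc := card_le_card hsub
    rw [Int.card_Icc] at hc
    have hmM : S.min' hne ≤ S.max' hne := S.min'_le _ (S.max'_mem hne)
    have h1 := abs_lt.mp (h _ (S.min'_mem hne))
    have h2 := abs_lt.mp (h _ (S.max'_mem hne))
    have h3 : ((S.max' hne + 1 - S.min' hne).toNat : ℤ) = S.max' hne + 1 - S.min' hne :=
      Int.toNat_of_nonneg (by omega)
    have h4 : (S.card : ℝ) ≤ ((S.max' hne + 1 - S.min' hne : ℤ) : ℝ) := by
      rw [← h3]; exact_mod_cast hc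
    push_cast at h4
    linarith [h1.1, h2.2]

theorem card_lin (S : Finset ℤ) (a t D : ℝ) (ha : a ≠ 0) (hD : 0 ≤ D)
    (h : ∀ d ∈ S, |a * (d : ℝ) - t| < D) : (S.card : ℝ) ≤ 2 * D / |a| + 1 := by
  have ha' : 0 < |a| := abs_pos.mpr ha
  have := card_near S (t / a) (D / |a|) (by positivity) (fun d hd => by
    have h1 := h d hd
    have : (d : ℝ) - t / a = (a * d - t) / a := by field_simp
    rw [this, abs_div]
    exact div_lt_div_of_pos_right h1 ha')
  calc (S.card : ℝ) ≤ _ := this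
    _ = _ := by ring

/-- the square of integers -/
noncomputable def sqr (H : ℕ) : Finset (ℤ × ℤ) := (Icc (-(H : ℤ)) H) ×ˢ (Icc (-(H : ℤ)) H)

theorem card_I (H : ℕ) : ((Icc (-(H : ℤ)) H).card : ℝ) = 2 * (H : ℝ) + 1 := by
  rw [Int.card_Icc]
  have : ((H : ℤ) + 1 - -(H : ℤ)).toNat = 2 * H + 1 := by omega
  rw [this]; push_cast; ring

theorem card_sqr (H : ℕ) : ((sqr H).card : ℝ) = (2 * (H : ℝ) + 1) ^ 2 := by
  rw [sqr, card_product]; push_cast; rw [card_I]; ring

open Classical in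
theorem fib (H : ℕ) (D : ℝ) (hD : 0 ≤ D) (u : ℤ × ℤ) (r : ℕ) (hr : 1 ≤ r)
    (hu : max u.1.natAbs u.2.natAbs = r) :
    (((sqr H).filter (fun v => |(dt u v : ℝ)| < D)).card : ℝ) ≤ (2 * (H : ℝ) + 1) * (2 * D / r + 1) := by
  rcases max_choice u.1.natAbs u.2.natAbs with hm | hm
  · -- `|u.1| = r`
    have h1 : u.1.natAbs = r := by omega
    have ha : |(u.1 : ℝ)| = r := by
      rw [← h1, ← Int.cast_natCast, Int.natCast_natAbs]; push_cast; rfl
    have ha0 : (u.1 : ℝ) ≠ 0 := by
      intro h0; rw [h0, abs_zero] at ha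
      have : (1 : ℝ) ≤ r := by exact_mod_cast hr
      linarith
    have hsum : ((sqr H).filter (fun v => |(dt u v : ℝ)| < D)).card
        = ∑ c ∈ Icc (-(H : ℤ)) H, ((Icc (-(H : ℤ)) H).filter (fun d => |(dt u (c, d) : ℝ)| < D)).card := by
      rw [sqr, card_filter, sum_product]
      refine sum_congr rfl fun c _ => ?_
      rw [card_filter]
    rw [hsum]; push_cast
    calc ∑ c ∈ Icc (-(H : ℤ)) H, (((Icc (-(H : ℤ)) H).filter (fun d => |(dt u (c, d) : ℝ)| < D)).card : ℝ)
        ≤ ∑ c ∈ Icc (-(H : ℤ)) (H : ℤ), (2 * D / r + 1) := by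
          refine sum_le_sum fun c _ => ?_
          rw [← ha]
          refine card_lin _ (u.1 : ℝ) ((u.2 : ℝ) * c) D ha0 hD fun d hd => ?_
          have := (mem_filter.mp hd).2
          simpa [dt] using this
      _ = _ := by rw [sum_const, nsmul_eq_mul, card_I]
  · have h1 : u.2.natAbs = r := by omega
    have ha : |(u.2 : ℝ)| = r := by
      rw [← h1, ← Int.cast_natCast, Int.natCast_natAbs]; push_cast; rfl
    have ha0 : (u.2 : ℝ) ≠ 0 := by
      intro h0; rw [h0, abs_zero] at ha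
      have : (1 : ℝ) ≤ r := by exact_mod_cast hr
      linarith
    have hsum : ((sqr H).filter (fun v => |(dt u v : ℝ)| < D)).card
        = ∑ d ∈ Icc (-(H : ℤ)) H, ((Icc (-(H : ℤ)) H).filter (fun c => |(dt u (c, d) : ℝ)| < D)).card := by
      rw [sqr, card_filter, sum_product_right]
      refine sum_congr rfl fun c _ => ?_
      rw [card_filter]
    rw [hsum]; push_cast
    calc ∑ d ∈ Icc (-(H : ℤ)) H, (((Icc (-(H : ℤ)) H).filter (fun c => |(dt u (c, d) : ℝ)| < D)).card : ℝ)
        ≤ ∑ c ∈ Icc (-(H : ℤ)) (H : ℤ), (2 * D / r + 1) := by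
          refine sum_le_sum fun c _ => ?_
          rw [← ha]
          refine card_lin _ (u.2 : ℝ) ((u.1 : ℝ) * c) D ha0 hD fun d hd => ?_
          have := (mem_filter.mp hd).2
          rw [abs_sub_comm]
          simpa [dt] using this
      _ = _ := by rw [sum_const, nsmul_eq_mul, card_I]

theorem goalDET : Pool.Agent.Helper73.SM.StmtDET := by
  classical
  intro D H hD hH
  have hb : box H = sqr H ×ˢ sqr H := rfl
  have hsum : ((box H).filter (fun g => |(dt g.1 g.2 : ℝ)| < D)).card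
      = ∑ u ∈ sqr H, ((sqr H).filter (fun v => |(dt u v : ℝ)| < D)).card := by
    rw [hb, card_filter, sum_product]
    refine sum_congr rfl fun c _ => ?_
    rw [card_filter]
  have hmaps : ∀ u ∈ sqr H, max u.1.natAbs u.2.natAbs ∈ range (H + 1) := by
    intro u hu
    rw [sqr, mem_product, mem_Icc, mem_Icc] at hu
    rw [mem_range]; omega
  rw [hsum, ← sum_fiberwise_of_maps_to hmaps]
  push_cast
  rw [sum_range_succ']
  have h0 : ∑ x ∈ sqr H with max x.1.natAbs x.2.natAbs = 0,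
      (((sqr H).filter (fun v => |(dt x v : ℝ)| < D)).card : ℝ) ≤ (2 * (H : ℝ) + 1) ^ 2 := by
    have hsub : ((sqr H).filter (fun x => max x.1.natAbs x.2.natAbs = 0)) ⊆ {(0, 0)} := by
      intro x hx
      have := (mem_filter.mp hx).2
      rw [mem_singleton]
      ext
      · simp; omega
      · simp; omega
    calc _ ≤ ∑ x ∈ ({(0, 0)} : Finset (ℤ × ℤ)),
          (((sqr H).filter (fun v => |(dt x v : ℝ)| < D)).card : ℝ) :=
          sum_le_sum_of_subset_of_nonneg hsub (fun _ _ _ => by positivity)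
      _ ≤ _ := by
          rw [sum_singleton, ← card_sqr]
          exact_mod_cast card_le_card (filter_subset _ _)
  have h1 : ∀ i ∈ range H, ∑ x ∈ sqr H with max x.1.natAbs x.2.natAbs = i + 1,
      (((sqr H).filter (fun v => |(dt x v : ℝ)| < D)).card : ℝ)
      ≤ (2 * (H : ℝ) + 1) * (16 * D + 8 * ((i : ℝ) + 1)) := by
    intro i _
    have hc : ((((sqr H).filter (fun x => max x.1.natAbs x.2.natAbs = i + 1)).card : ℕ) : ℝ)
        ≤ 8 * ((i : ℝ) + 1) := by
      have hsub : (sqr H).filter (fun x => max x.1.natAbs x.2.natAbs = i + 1)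
          ⊆ (Finset.box (i + 1) : Finset (ℤ × ℤ)) := by
        intro x hx
        rw [Int.mem_box]; exact (mem_filter.mp hx).2
      have := card_le_card hsub
      rw [Int.card_box (by omega)] at this
      exact_mod_cast this
    calc _ ≤ ∑ x ∈ sqr H with max x.1.natAbs x.2.natAbs = i + 1,
          (2 * (H : ℝ) + 1) * (2 * D / ((i + 1 : ℕ) : ℝ) + 1) :=
          sum_le_sum fun x hx => fib H D hD x (i + 1) (by omega) (mem_filter.mp hx).2
      _ ≤ 8 * ((i : ℝ) + 1) * ((2 * (H : ℝ) + 1) * (2 * D / ((i + 1 : ℕ) : ℝ) + 1)) := by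
          rw [sum_const, nsmul_eq_mul]
          exact mul_le_mul_of_nonneg_right hc (by positivity)
      _ = _ := by
          push_cast
          field_simp
          ring
  have h2 : ∀ n : ℕ, ∑ i ∈ range n, (2 * (H : ℝ) + 1) * (16 * D + 8 * ((i : ℝ) + 1))
      = (2 * (H : ℝ) + 1) * (16 * D * n + 4 * n * (n + 1)) := by
    intro n
    induction n with
    | zero => simp
    | succ n ih => rw [sum_range_succ, ih]; push_cast; ring
  have hH' : (1 : ℝ) ≤ H := by exact_mod_cast hH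
  calc _ ≤ ∑ i ∈ range H, (2 * (H : ℝ) + 1) * (16 * D + 8 * ((i : ℝ) + 1)) + (2 * (H : ℝ) + 1) ^ 2 :=
        add_le_add (sum_le_sum h1) h0
    _ = (2 * (H : ℝ) + 1) * (16 * D * H + 4 * H * (H + 1)) + (2 * (H : ℝ) + 1) ^ 2 := by rw [h2]
    _ ≤ _ := by
        have e1 : 0 ≤ D * (2 * (H : ℝ) + 1) := by positivity
        have e2 : 0 ≤ (2 * (H : ℝ) + 1) := by positivity
        nlinarith [mul_nonneg e2 e2, mul_nonneg e2 (mul_nonneg e2 e2), mul_nonneg e2 (by linarith : (0:ℝ) ≤ H - 1)]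

end Pool.Agent.Helper45.SM
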