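import Pool.Agent.Helper73.SM.Goals

/-!
# Project SM, packet REM: size and remainder of the approximants
-/

set_option autoImplicit false

namespace Pool.Agent.Helper45.SM

open Finset Pool.Agent.Helper73.SM

/-- coefficients of the denominator -/
noncomputable def bc (ν : ℝ) (n j : ℕ) : ℝ := Ring.choose ((n : ℝ) - ν) j * ((2 * n - j).choose n : ℝ)

theorem bc_nonneg (hB : StmtBIN) (ν : ℝ) (n j : ℕ) (h0 : 0 ≤ ν) (h1 : ν < 1) (hj : j ≤ n) : 0 ≤ bc ν n j :=
  mul_nonneg (hB.pos ν n j h0 h1 hj).le (Nat.cast_nonneg _)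

theorem bc_le (hB : StmtBIN) (ν : ℝ) (n j : ℕ) (h0 : 0 ≤ ν) (h1 : ν < 1) (hj : j ≤ n) :
    bc ν n j ≤ (n.choose j : ℝ) * 4 ^ n := by
  have h2 : (2 * n - j).choose n ≤ 4 ^ n := by
    calc (2 * n - j).choose n ≤ (2 * n).choose n := Nat.choose_le_choose n (by omega)
      _ = n.centralBinom := rfl
      _ ≤ 4 ^ n := by
        calc n.centralBinom = (2 * n).choose n := rfl
          _ ≤ 2 ^ (2 * n) := Nat.choose_le_two_pow _ _
          _ = 4 ^ n := by rw [pow_mul]; norm_num
  exact mul_le_mul (hB.le ν n j h0 h1 hj) (by exact_mod_cast h2) (Nat.cast_nonneg _) (Nat.cast_nonneg _)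

theorem sum_choose (n : ℕ) : ∑ j ∈ range (n + 1), ((n.choose j : ℝ) * 4 ^ n) = 8 ^ n := by
  rw [← sum_mul]
  have : (∑ j ∈ range (n + 1), (n.choose j : ℝ)) = 2 ^ n := by
    exact_mod_cast Nat.sum_range_choose n
  rw [this, ← mul_pow]; norm_num

theorem goalREM (hSAA : StmtSAA) (hBIN : StmtBIN) : StmtREM := by
  intro ν x n h0 h1 hx hx2
  have hPB : PB ν n x = ∑ j ∈ range (n + 1), bc ν n j * x ^ j := rfl
  have hx1 : x ≤ 1 := by linarith
  refine ⟨?_, ?_, ?_⟩
  · rw [hPB]
    have hs : bc ν n 0 * x ^ 0 ≤ ∑ j ∈ range (n + 1), bc ν n j * x ^ j :=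
      single_le_sum (f := fun j => bc ν n j * x ^ j)
        (fun j hj => mul_nonneg (bc_nonneg hBIN ν n j h0 h1 (by rw [mem_range] at hj; omega)) (by positivity))
        (mem_range.mpr (by omega))
    refine le_trans ?_ hs
    rw [bc, Ring.choose_zero_right, pow_zero, mul_one, one_mul]
    have : 1 ≤ (2 * n - 0).choose n := Nat.choose_pos (by omega)
    exact_mod_cast this
  · rw [hPB, ← sum_choose]
    refine sum_le_sum fun j hj => ?_
    have hj' : j ≤ n := by rw [mem_range] at hj; omega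
    have h3 := bc_nonneg hBIN ν n j h0 h1 hj'
    calc bc ν n j * x ^ j ≤ bc ν n j * 1 :=
          mul_le_mul_of_nonneg_left (pow_le_one₀ hx.le hx1) h3
      _ ≤ _ := by rw [mul_one]; exact bc_le hBIN ν n j h0 h1 hj'
  · -- the series
    set r : ℕ → ℝ := fun m => ∑ j ∈ range (n + 1), (if j ≤ m then
      Ring.choose ((n : ℝ) - ν) j * ((2 * n - j).choose n : ℝ) * Ring.choose ν (m - j) else 0) with hr
    have hS : HasSum (fun m : ℕ => Ring.choose ν m * x ^ m) ((1 + x) ^ ν) :=
      hBIN.hs ν x (by rw [abs_of_pos hx]; linarith)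
    have hj : ∀ j : ℕ, HasSum (fun m : ℕ => (if j ≤ m then bc ν n j * Ring.choose ν (m - j) else 0) * x ^ m)
        (bc ν n j * x ^ j * (1 + x) ^ ν) := by
      intro j
      have hinj : Function.Injective (fun m : ℕ => m + j) := fun a b h => by simpa using h
      rw [← hinj.hasSum_iff]
      · have h4 := hS.mul_left (bc ν n j * x ^ j)
        refine h4.congr_fun ?_ |> fun h => h
        intro m
        simp only [Function.comp]
        rw [if_pos (by omega), Nat.add_sub_cancel, pow_add]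
        ring
      · intro m hm
        have : ¬ j ≤ m := fun h => hm ⟨m - j, by simp; omega⟩
        rw [if_neg this, zero_mul]
    have hT : HasSum (fun m : ℕ => r m * x ^ m) ((1 + x) ^ ν * PB ν n x) := by
      have h5 := hasSum_sum (f := fun (j : ℕ) (m : ℕ) =>
        (if j ≤ m then bc ν n j * Ring.choose ν (m - j) else 0) * x ^ m)
        (a := fun j => bc ν n j * x ^ j * (1 + x) ^ ν) (s := range (n + 1)) (fun j _ => hj j)
      rw [← sum_mul, ← hPB, mul_comm] at h5
      refine h5.congr_fun ?_ |> fun h => h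
      intro m
      rw [← sum_mul]
      rfl
    have hrm : ∀ m, |r m| ≤ 8 ^ n := by
      intro m
      rw [← sum_choose]
      refine (abs_sum_le_sum_abs _ _).trans (sum_le_sum fun j hj' => ?_)
      have hjn : j ≤ n := by rw [mem_range] at hj'; omega
      split_ifs with hjm
      · rw [abs_mul]
        have h6 : |Ring.choose ((n : ℝ) - ν) j * ((2 * n - j).choose n : ℝ)| = bc ν n j :=
          abs_of_nonneg (bc_nonneg hBIN ν n j h0 h1 hjn)
        rw [h6]
        calc bc ν n j * |Ring.choose ν (m - j)| ≤ bc ν n j * 1 :=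
              mul_le_mul_of_nonneg_left (hBIN.le1 ν _ h0 h1.le) (bc_nonneg hBIN ν n j h0 h1 hjn)
          _ ≤ _ := by rw [mul_one]; exact bc_le hBIN ν n j h0 h1 hjn
      · rw [abs_zero]; positivity
    have hPA : ∑ i ∈ range (2 * n + 1), r i * x ^ i = PA ν n x := by
      have h7 : ∀ i ∈ range (2 * n + 1), r i * x ^ i
          = if i ≤ n then Ring.choose ((n : ℝ) + ν) i * ((2 * n - i).choose n : ℝ) * x ^ i else 0 := by
        intro i hi
        have := hSAA ν n i (by rw [mem_range] at hi; omega)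
        rw [hr]; simp only []
        rw [this, ite_mul, zero_mul]
      rw [sum_congr rfl h7, ← sum_filter]
      have h8 : (range (2 * n + 1)).filter (fun i => i ≤ n) = range (n + 1) := by
        ext i; simp only [mem_filter, mem_range]; omega
      rw [h8]; rfl
    have h9 := (hasSum_nat_add_iff' (2 * n + 1)).mpr hT
    rw [hPA] at h9
    have hgeo : HasSum (fun m : ℕ => 8 ^ n * x ^ (2 * n + 1) * x ^ m) (8 ^ n * x ^ (2 * n + 1) * (1 - x)⁻¹) :=
      (hasSum_geometric_of_lt_one hx.le (by linarith)).mul_left _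
    have h10 : ‖(1 + x) ^ ν * PB ν n x - PA ν n x‖ ≤ 8 ^ n * x ^ (2 * n + 1) * (1 - x)⁻¹ := by
      refine HasSum.norm_le_of_bounded h9 hgeo fun m => ?_
      rw [Real.norm_eq_abs, abs_mul, abs_of_nonneg (by positivity : 0 ≤ x ^ (m + (2 * n + 1))), pow_add]
      calc |r (m + (2 * n + 1))| * (x ^ m * x ^ (2 * n + 1))
          ≤ 8 ^ n * (x ^ m * x ^ (2 * n + 1)) := mul_le_mul_of_nonneg_right (hrm _) (by positivity)
        _ = _ := by ring
    rw [abs_sub_comm, ← Real.norm_eq_abs]
    refine h10.trans ?_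
    have h11 : (1 - x)⁻¹ ≤ 2 := by
      rw [inv_le_comm₀ (by linarith) (by norm_num)]; linarith
    calc 8 ^ n * x ^ (2 * n + 1) * (1 - x)⁻¹ ≤ 8 ^ n * x ^ (2 * n + 1) * 2 :=
          mul_le_mul_of_nonneg_left h11 (by positivity)
      _ = _ := by ring

end Pool.Agent.Helper45.SM
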